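import Mathlib

/-!
# A cubical Tucker lemma

For an odd labelling `L` of the vertices of the cube `{±1}^n` by signed labels `±1, …, ±m`
there is a face of positive dimension `d` on which at least `d` of the labels occur with both signs.

The proof is a mod 2 chain argument.
-/

namespace H294BF

open Finset

variable {m n : ℕ}

/-- The antipodal label. -/
def neg (u : Fin m × Bool) : Fin m × Bool := (u.1, !u.2)

@[simp] lemma neg_neg (u : Fin m × Bool) : neg (neg u) = u := by
  rcases u with ⟨i, b⟩; simp [neg]

@[simp] lemma neg_fst (u : Fin m × Bool) : (neg u).1 = u.1 := rfl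

lemma neg_ne (u : Fin m × Bool) : neg u ≠ u := by
  rcases u with ⟨i, b⟩
  intro h
  have := congrArg Prod.snd h
  simp [neg] at this

lemma neg_inj : Function.Injective (neg : Fin m × Bool → Fin m × Bool) := by
  intro a b h
  have := congrArg neg h
  simpa using this

/-- Antipodal set of labels. -/
def negS (X : Finset (Fin m × Bool)) : Finset (Fin m × Bool) := X.image neg

lemma mem_negS {X : Finset (Fin m × Bool)} {u : Fin m × Bool} : u ∈ negS X ↔ neg u ∈ X := by
  unfold negS
  rw [Finset.mem_image]
  constructor
  · rintro ⟨v, hv, rfl⟩; simpa using hv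
  · intro h; exact ⟨neg u, h, by simp⟩

@[simp] lemma negS_negS (X : Finset (Fin m × Bool)) : negS (negS X) = X := by
  ext u; simp [mem_negS]

lemma negS_erase (X : Finset (Fin m × Bool)) (u : Fin m × Bool) :
    negS (X.erase u) = (negS X).erase (neg u) := by
  ext v
  simp only [mem_negS, Finset.mem_erase]
  constructor
  · rintro ⟨h1, h2⟩
    refine ⟨?_, h2⟩
    rintro rfl
    simp at h1
  · rintro ⟨h1, h2⟩
    refine ⟨?_, h2⟩
    rintro rfl
    simp at h1

lemma negS_empty : negS (∅ : Finset (Fin m × Bool)) = ∅ := by
  simp [negS]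

lemma negS_eq_empty {X : Finset (Fin m × Bool)} : negS X = ∅ ↔ X = ∅ := by
  simp [negS]

lemma negS_singleton (u : Fin m × Bool) : negS {u} = {neg u} := by
  simp [negS]

/-- Mod 2 chains on the full simplex with vertex set `Fin m × Bool`. -/
abbrev Ch (m : ℕ) := Finset (Fin m × Bool) → ZMod 2

/-- Boundary. -/
def bd (z : Ch m) : Ch m := fun X => ∑ u ∈ Xᶜ, z (insert u X)

/-- Cone. -/
def cone (u : Fin m × Bool) (z : Ch m) : Ch m := fun X => if u ∈ X then z (X.erase u) else 0

/-- Coboundary. -/
def cob (θ : Ch m) : Ch m := fun X => ∑ u ∈ X, θ (X.erase u)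

/-- Pairing. -/
def pr (θ z : Ch m) : ZMod 2 := ∑ X, θ X * z X

lemma two_self (a : ZMod 2) : a + a = 0 := CharTwo.add_self_eq_zero a

lemma bd_cone (u : Fin m × Bool) (z : Ch m) (X : Finset (Fin m × Bool)) :
    bd (cone u z) X + cone u (bd z) X = z X := by
  unfold bd cone
  by_cases hu : u ∈ X
  · simp only [hu, if_true]
    have h1 : ∑ v ∈ Xᶜ, (if u ∈ insert v X then z ((insert v X).erase u) else 0)
        = ∑ v ∈ Xᶜ, z (insert v (X.erase u)) := by
      apply Finset.sum_congr rfl
      intro v hv
      have hvX : v ∉ X := by simpa using hv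
      have hne : v ≠ u := by rintro rfl; exact hvX hu
      rw [if_pos (Finset.mem_insert_of_mem hu), Finset.erase_insert_of_ne hne]
    have h2 : (X.erase u)ᶜ = insert u Xᶜ := by
      rw [Finset.compl_erase]
    rw [h1, h2, Finset.sum_insert (by simpa using hu), Finset.insert_erase hu]
    rw [add_comm (z X), ← add_assoc, two_self, zero_add]
  · simp only [hu, if_false, add_zero]
    rw [Finset.sum_eq_single_of_mem u (by simpa using hu)]
    · rw [if_pos (Finset.mem_insert_self _ _), Finset.erase_insert hu]
    · intro v _ hvu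
      rw [if_neg]
      intro h
      rcases Finset.mem_insert.1 h with h | h
      · exact hvu h.symm
      · exact hu h

lemma pr_bd (θ z : Ch m) : pr θ (bd z) = pr (cob θ) z := by
  unfold pr bd cob
  simp only [Finset.mul_sum, Finset.sum_mul]
  rw [Finset.sum_sigma', Finset.sum_sigma']
  refine Finset.sum_bij' (fun p _ => ⟨insert p.2 p.1, p.2⟩) (fun p _ => ⟨p.1.erase p.2, p.2⟩)
    ?_ ?_ ?_ ?_ ?_
  · rintro ⟨X, u⟩ h
    simp at h ⊢
  · rintro ⟨X, u⟩ h
    simp at h ⊢
  · rintro ⟨X, u⟩ h
    simp at h ⊢
    exact h
  · rintro ⟨X, u⟩ h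
    simp at h ⊢
    rw [Finset.insert_erase h]
  · rintro ⟨X, u⟩ h
    simp at h
    simp only
    rw [Finset.erase_insert h]

/-- A symmetric double sum over ordered pairs of distinct elements vanishes mod 2. -/
lemma sum_erase_symm {α : Type*} [DecidableEq α] (s : Finset α) (f : α → α → ZMod 2)
    (hf : ∀ a b, a ≠ b → f a b = f b a) : ∑ a ∈ s, ∑ b ∈ s.erase a, f a b = 0 := by
  rw [Finset.sum_sigma']
  apply Finset.sum_involution (fun (p : (_ : α) × α) _ => (⟨p.2, p.1⟩ : (_ : α) × α))
  · rintro ⟨a, b⟩ h
    simp at h
    simp only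
    rw [hf a b (by tauto)]
    exact two_self _
  · rintro ⟨a, b⟩ h _
    simp at h
    intro heq
    simp at heq
    exact h.2.1 heq.1
  · rintro ⟨a, b⟩ h
    simp at h ⊢
    tauto
  · rintro ⟨a, b⟩ h
    rfl

lemma cob_cob (θ : Ch m) : cob (cob θ) = 0 := by
  funext X
  unfold cob
  simp only [Pi.zero_apply]
  apply sum_erase_symm
  intro a b _
  rw [Finset.erase_right_comm]

lemma cob_negS (θ : Ch m) (X : Finset (Fin m × Bool)) :
    cob θ (negS X) = cob (fun Y => θ (negS Y)) X := by
  unfold cob
  apply Finset.sum_bij' (fun u _ => neg u) (fun u _ => neg u)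
  · intro u hu; rw [mem_negS] at hu; exact hu
  · intro u hu; rw [mem_negS, neg_neg]; exact hu
  · intro u _; simp
  · intro u _; simp
  · intro u _
    simp only
    rw [negS_erase, neg_neg]

/-- Rows in which exactly one of the two labels occurs. -/
def rowsU (X : Finset (Fin m × Bool)) : Finset (Fin m) :=
  univ.filter (fun i => ¬ ((i, true) ∈ X ↔ (i, false) ∈ X))

lemma rowsU_negS (X : Finset (Fin m × Bool)) : rowsU (negS X) = rowsU X := by
  ext i
  simp [rowsU, mem_negS, neg]
  tauto

/-- The pivot: the unpaired label with least row. -/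
noncomputable def piv (X : Finset (Fin m × Bool)) : Option (Fin m × Bool) :=
  if h : (rowsU X).Nonempty then some ((rowsU X).min' h, decide (((rowsU X).min' h, true) ∈ X))
  else none

lemma piv_none {X : Finset (Fin m × Bool)} (h : piv X = none) (i : Fin m) :
    ((i, true) ∈ X ↔ (i, false) ∈ X) := by
  unfold piv at h
  by_cases hne : (rowsU X).Nonempty
  · rw [dif_pos hne] at h; simp at h
  · rw [Finset.not_nonempty_iff_eq_empty] at hne
    by_contra hc
    have : i ∈ rowsU X := by simp [rowsU, hc]
    rw [hne] at this
    simp at this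

lemma piv_some {X : Finset (Fin m × Bool)} {u : Fin m × Bool} (h : piv X = some u) :
    u ∈ X ∧ neg u ∉ X := by
  unfold piv at h
  by_cases hne : (rowsU X).Nonempty
  · rw [dif_pos hne] at h
    have hmem := Finset.min'_mem _ hne
    set i := (rowsU X).min' hne with hi
    simp only [rowsU, Finset.mem_filter, Finset.mem_univ, true_and] at hmem
    have hu : u = (i, decide ((i, true) ∈ X)) := by
      have := Option.some.inj h
      exact this.symm
    subst hu
    by_cases ht : (i, true) ∈ X
    · simp only [ht, decide_true, neg, Bool.not_true]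
      refine ⟨trivial, ?_⟩
      intro hf
      exact hmem ⟨fun _ => hf, fun _ => ht⟩
    · simp only [ht, decide_false, neg, Bool.not_false]
      refine ⟨?_, not_false⟩
      by_contra hf
      exact hmem ⟨fun h => absurd h ht, fun h => absurd h hf⟩
  · rw [dif_neg hne] at h; simp at h

lemma piv_negS (X : Finset (Fin m × Bool)) : piv (negS X) = (piv X).map neg := by
  unfold piv
  have hr := rowsU_negS X
  by_cases hne : (rowsU X).Nonempty
  · have hne' : (rowsU (negS X)).Nonempty := by rw [hr]; exact hne
    rw [dif_pos hne, dif_pos hne']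
    have hmin : (rowsU (negS X)).min' hne' = (rowsU X).min' hne := by
      congr 1
    rw [hmin]
    have hmem := Finset.min'_mem _ hne
    set i := (rowsU X).min' hne with hi
    simp only [rowsU, Finset.mem_filter, Finset.mem_univ, true_and] at hmem
    simp only [Option.map_some, neg, mem_negS, Option.some.injEq, Prod.mk.injEq, true_and,
      Bool.not_true]
    by_cases ht : (i, true) ∈ X
    · have hf : (i, false) ∉ X := fun hf => hmem ⟨fun _ => hf, fun _ => ht⟩
      simp [ht, hf]
    · have hf : (i, false) ∈ X := by
        by_contra hf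
        exact hmem ⟨fun h => absurd h ht, fun h => absurd h hf⟩
      simp [ht, hf]
  · have hne' : ¬ (rowsU (negS X)).Nonempty := by rw [hr]; exact hne
    rw [dif_neg hne, dif_neg hne']
    rfl

/-- Antipodal-free. -/
def AF (X : Finset (Fin m × Bool)) : Prop := ∀ u ∈ X, neg u ∉ X

lemma AF.erase {X : Finset (Fin m × Bool)} (h : AF X) (u : Fin m × Bool) : AF (X.erase u) := by
  intro v hv hv'
  exact h v (Finset.mem_of_mem_erase hv) (Finset.mem_of_mem_erase hv')

lemma AF.piv_ne_none {X : Finset (Fin m × Bool)} (h : AF X) (hX : X.Nonempty) :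
    ∃ u, piv X = some u := by
  rcases hp : piv X with _ | u
  · obtain ⟨⟨i, b⟩, hv⟩ := hX
    have h1 := piv_none hp i
    exfalso
    have h2 := h _ hv
    cases b
    · exact h2 (h1.2 hv)
    · exact h2 (h1.1 hv)
  · exact ⟨u, rfl⟩

/-- Positive sets: the pivot label has sign `true`. -/
def pos (X : Finset (Fin m × Bool)) : Prop := ∃ i, piv X = some (i, true)

lemma pos_negS {X : Finset (Fin m × Bool)} (h : AF X) (hX : X.Nonempty) :
    pos (negS X) ↔ ¬ pos X := by
  obtain ⟨⟨i, b⟩, hu⟩ := h.piv_ne_none hX
  unfold pos
  rw [piv_negS, hu]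
  cases b <;> simp [neg]

open Classical in
/-- The cochains detecting the generator. -/
noncomputable def th : ℕ → Ch m
  | 0 => fun X => if X = ∅ then 1 else 0
  | k + 1 => fun X => if pos X then cob (th k) X else 0

open Classical in
lemma th_identity (k : ℕ) : ∀ X : Finset (Fin m × Bool), AF X →
    cob (th k) (negS X) = cob (th k) X ∧
    th (k + 1) X + th (k + 1) (negS X) = cob (th k) X := by
  induction k with
  | zero =>
    intro X hX
    have h1 : cob (th 0) (negS X) = cob (th 0) X := by
      rw [cob_negS]
      unfold cob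
      apply Finset.sum_congr rfl
      intro u _
      simp only [th, negS_eq_empty]
    refine ⟨h1, ?_⟩
    rcases X.eq_empty_or_nonempty with rfl | hne
    · rw [negS_empty, two_self]
      simp [cob]
    · have hp := pos_negS hX hne
      simp only [th]
      simp only [th] at h1
      rw [h1]
      by_cases h : pos X
      · have h' : ¬ pos (negS X) := by rw [hp]; exact not_not.2 h
        simp [h, h']
      · have h' : pos (negS X) := by rw [hp]; exact h
        simp [h, h']
  | succ k ih =>
    intro X hX
    have h1 : cob (th (k + 1)) (negS X) = cob (th (k + 1)) X := by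
      have h2 : cob (th (k + 1)) (negS X) + cob (th (k + 1)) X = 0 := by
        rw [cob_negS]
        unfold cob
        rw [← Finset.sum_add_distrib]
        have h3 : ∀ u ∈ X, th (k + 1) (negS (X.erase u)) + th (k + 1) (X.erase u)
            = cob (th k) (X.erase u) := by
          intro u _
          rw [add_comm]
          exact (ih _ (hX.erase u)).2
        rw [Finset.sum_congr rfl h3]
        exact congrFun (cob_cob (th k)) X
      exact CharTwo.add_eq_zero.1 h2
    refine ⟨h1, ?_⟩
    rcases X.eq_empty_or_nonempty with rfl | hne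
    · rw [negS_empty, two_self]
      simp [cob]
    · have hp := pos_negS hX hne
      have e1 : th (k + 1 + 1) X = if pos X then cob (th (k + 1)) X else 0 := rfl
      have e2 : th (k + 1 + 1) (negS X) = if pos (negS X) then cob (th (k + 1)) (negS X) else 0 :=
        rfl
      rw [e1, e2, h1]
      by_cases h : pos X
      · have h' : ¬ pos (negS X) := by rw [hp]; exact not_not.2 h
        simp [h, h']
      · have h' : pos (negS X) := by rw [hp]; exact h
        simp [h, h']

end H294BF
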