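import Mathlib
import Pool.Agent.H294R2.BF.Tucker

/-!
# A cubical Tucker lemma, part 2: chains from the cube
-/

namespace H294BF

open Finset

variable {m n : ℕ}

/-- Antipode of a cube vertex. -/
def inv (x : Fin n → Bool) : Fin n → Bool := fun j => !x j

@[simp] lemma inv_inv (x : Fin n → Bool) : inv (inv x) = x := by
  funext j; simp [inv]

/-- Vertices of the face with free set `S` through `x`. -/
def face (S : Finset (Fin n)) (x : Fin n → Bool) : Finset (Fin n → Bool) :=
  univ.filter (fun y => ∀ j, j ∉ S → y j = x j)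

lemma mem_face {S : Finset (Fin n)} {x y : Fin n → Bool} :
    y ∈ face S x ↔ ∀ j, j ∉ S → y j = x j := by simp [face]

lemma face_congr {S : Finset (Fin n)} {x y : Fin n → Bool} (h : ∀ j, j ∉ S → x j = y j) :
    face S x = face S y := by
  ext z
  rw [mem_face, mem_face]
  constructor
  · intro hz j hj; rw [hz j hj, h j hj]
  · intro hz j hj; rw [hz j hj, h j hj]

/-- Labels on the face. -/
def lab (L : (Fin n → Bool) → Fin m × Bool) (S : Finset (Fin n)) (x : Fin n → Bool) :
    Finset (Fin m × Bool) := (face S x).image L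

/-- Rows both of whose labels occur on the face. -/
def paired (L : (Fin n → Bool) → Fin m × Bool) (S : Finset (Fin n)) (x : Fin n → Bool) :
    Finset (Fin m) := univ.filter (fun i => (i, true) ∈ lab L S x ∧ (i, false) ∈ lab L S x)

lemma lab_sub (L : (Fin n → Bool) → Fin m × Bool) {S : Finset (Fin n)} {s : Fin n} (hs : s ∈ S)
    (x : Fin n → Bool) (b : Bool) :
    lab L (S.erase s) (Function.update x s b) ⊆ lab L S x := by
  apply Finset.image_subset_image
  intro y hy
  rw [mem_face] at hy ⊢
  intro j hj
  have hjs : j ≠ s := by rintro rfl; exact hj hs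
  rw [hy j (by simp [hj]), Function.update_of_ne hjs]

lemma lab_inv {L : (Fin n → Bool) → Fin m × Bool} (hL : ∀ x, L (inv x) = neg (L x))
    (S : Finset (Fin n)) (x : Fin n → Bool) : lab L S (inv x) = negS (lab L S x) := by
  ext u
  rw [mem_negS]
  simp only [lab, Finset.mem_image, mem_face]
  constructor
  · rintro ⟨y, hy, rfl⟩
    refine ⟨inv y, ?_, hL y⟩
    intro j hj
    have := hy j hj
    simp only [inv] at this ⊢
    rw [this]; simp
  · rintro ⟨y, hy, hyu⟩
    refine ⟨inv y, ?_, ?_⟩
    · intro j hj
      have := hy j hj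
      simp only [inv]
      rw [this]
    · rw [hL, hyu, neg_neg]

/-- The chain attached to a face of dimension `d`. -/
noncomputable def Ph (L : (Fin n → Bool) → Fin m × Bool) :
    ℕ → Finset (Fin n) → (Fin n → Bool) → Ch m
  | 0, _, x => fun X => if X = {L x} then 1 else 0
  | d + 1, S, x =>
    match piv (lab L S x) with
    | none => fun _ => 0
    | some u => cone u (fun X => ∑ s ∈ S, ∑ b : Bool, Ph L d (S.erase s) (Function.update x s b) X)

/-- The chain of the boundary of a face of dimension `d + 1`. -/
noncomputable def Bd (L : (Fin n → Bool) → Fin m × Bool) (d : ℕ) (S : Finset (Fin n))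
    (x : Fin n → Bool) : Ch m :=
  fun X => ∑ s ∈ S, ∑ b : Bool, Ph L d (S.erase s) (Function.update x s b) X

lemma Ph_succ_none {L : (Fin n → Bool) → Fin m × Bool} {d : ℕ} {S : Finset (Fin n)}
    {x : Fin n → Bool} (h : piv (lab L S x) = none) : Ph L (d + 1) S x = fun _ => 0 := by
  rw [Ph, h]

lemma Ph_succ_some {L : (Fin n → Bool) → Fin m × Bool} {d : ℕ} {S : Finset (Fin n)}
    {x : Fin n → Bool} {u : Fin m × Bool} (h : piv (lab L S x) = some u) :
    Ph L (d + 1) S x = cone u (Bd L d S x) := by
  rw [Ph, h]; rfl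

lemma Ph_zero (L : (Fin n → Bool) → Fin m × Bool) (S : Finset (Fin n)) (x : Fin n → Bool)
    (X : Finset (Fin m × Bool)) : Ph L 0 S x X = if X = {L x} then 1 else 0 := by
  rw [Ph]

/-- (P1) -/
lemma Ph_congr (L : (Fin n → Bool) → Fin m × Bool) (d : ℕ) : ∀ (S : Finset (Fin n))
    (x y : Fin n → Bool), S.card = d → (∀ j, j ∉ S → x j = y j) → Ph L d S x = Ph L d S y := by
  induction d with
  | zero =>
    intro S x y hS h
    rw [Finset.card_eq_zero] at hS
    subst hS
    have : x = y := funext fun j => h j (by simp)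
    rw [this]
  | succ d ih =>
    intro S x y hS h
    have hlab : lab L S x = lab L S y := by unfold lab; rw [face_congr h]
    have hB : Bd L d S x = Bd L d S y := by
      funext X
      unfold Bd
      apply Finset.sum_congr rfl
      intro s hs
      apply Finset.sum_congr rfl
      intro b _
      rw [ih (S.erase s) (Function.update x s b) (Function.update y s b)
        (by rw [Finset.card_erase_of_mem hs, hS]; rfl)]
      intro j hj
      by_cases hjs : j = s
      · subst hjs; simp
      · rw [Function.update_of_ne hjs, Function.update_of_ne hjs]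
        apply h
        intro hjS
        exact hj (Finset.mem_erase.2 ⟨hjs, hjS⟩)
    rcases hp : piv (lab L S x) with _ | u
    · rw [Ph_succ_none hp, Ph_succ_none (by rw [← hlab]; exact hp)]
    · rw [Ph_succ_some hp, Ph_succ_some (by rw [← hlab]; exact hp), hB]

/-- (P2) -/
lemma Ph_supp (L : (Fin n → Bool) → Fin m × Bool) (d : ℕ) : ∀ (S : Finset (Fin n))
    (x : Fin n → Bool) (X : Finset (Fin m × Bool)), Ph L d S x X ≠ 0 →
      X.card = d + 1 ∧ AF X ∧ X ⊆ lab L S x := by
  induction d with
  | zero =>
    intro S x X hX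
    rw [Ph_zero] at hX
    have hX' : X = {L x} := by
      by_contra hc; exact hX (if_neg hc)
    subst hX'
    refine ⟨by simp, ?_, ?_⟩
    · intro u hu hu'
      rw [Finset.mem_singleton] at hu hu'
      subst hu
      exact neg_ne _ hu'
    · rw [Finset.singleton_subset_iff]
      exact Finset.mem_image_of_mem _ (mem_face.2 fun _ _ => rfl)
  | succ d ih =>
    intro S x X hX
    rcases hp : piv (lab L S x) with _ | u
    · rw [Ph_succ_none hp] at hX; exact absurd rfl hX
    · rw [Ph_succ_some hp] at hX
      unfold cone at hX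
      have huX : u ∈ X := by
        by_contra hc; rw [if_neg hc] at hX; exact hX rfl
      rw [if_pos huX] at hX
      unfold Bd at hX
      obtain ⟨s, hs, h1⟩ := Finset.exists_ne_zero_of_sum_ne_zero hX
      obtain ⟨b, _, h2⟩ := Finset.exists_ne_zero_of_sum_ne_zero h1
      obtain ⟨h3, h4, h5⟩ := ih _ _ _ h2
      have h6 : X.erase u ⊆ lab L S x := h5.trans (lab_sub L hs x b)
      obtain ⟨hu1, hu2⟩ := piv_some hp
      refine ⟨?_, ?_, ?_⟩
      · rw [Finset.card_erase_of_mem huX] at h3
        have := Finset.card_pos.2 ⟨u, huX⟩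
        omega
      · intro v hv hv'
        by_cases hvu : v = u
        · subst hvu
          exact hu2 (h6 (Finset.mem_erase.2 ⟨neg_ne _, hv'⟩))
        · by_cases hvu' : neg v = u
          · apply hu2
            rw [← hvu', neg_neg]
            exact h6 (Finset.mem_erase.2 ⟨hvu, hv⟩)
          · exact h4 v (Finset.mem_erase.2 ⟨hvu, hv⟩) (Finset.mem_erase.2 ⟨hvu', hv'⟩)
      · intro v hv
        by_cases hvu : v = u
        · subst hvu; exact hu1
        · exact h6 (Finset.mem_erase.2 ⟨hvu, hv⟩)

lemma Bd_supp (L : (Fin n → Bool) → Fin m × Bool) (d : ℕ) (S : Finset (Fin n))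
    (x : Fin n → Bool) (X : Finset (Fin m × Bool)) (hX : Bd L d S x X ≠ 0) :
      X.card = d + 1 ∧ AF X ∧ X ⊆ lab L S x := by
  unfold Bd at hX
  obtain ⟨s, hs, h1⟩ := Finset.exists_ne_zero_of_sum_ne_zero hX
  obtain ⟨b, _, h2⟩ := Finset.exists_ne_zero_of_sum_ne_zero h1
  obtain ⟨h3, h4, h5⟩ := Ph_supp L d _ _ _ h2
  exact ⟨h3, h4, h5.trans (lab_sub L hs x b)⟩

/-- (P4) -/
lemma Ph_inv {L : (Fin n → Bool) → Fin m × Bool} (hL : ∀ x, L (inv x) = neg (L x)) (d : ℕ) :
    ∀ (S : Finset (Fin n)) (x : Fin n → Bool) (X : Finset (Fin m × Bool)),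
      Ph L d S (inv x) X = Ph L d S x (negS X) := by
  induction d with
  | zero =>
    intro S x X
    rw [Ph_zero, Ph_zero, hL]
    congr 1
    apply propext
    constructor
    · rintro rfl; rw [negS_singleton, neg_neg]
    · intro h
      have := congrArg negS h
      rwa [negS_negS, negS_singleton] at this
  | succ d ih =>
    intro S x X
    have hB : ∀ Y, Bd L d S (inv x) Y = Bd L d S x (negS Y) := by
      intro Y
      unfold Bd
      apply Finset.sum_congr rfl
      intro s _
      have h1 : ∀ b : Bool, Function.update (inv x) s b = inv (Function.update x s (!b)) := by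
        intro b
        funext j
        by_cases hj : j = s
        · subst hj; simp [inv]
        · simp [inv, Function.update_of_ne hj]
      simp only [h1, ih]
      rw [Fintype.sum_bool, Fintype.sum_bool, add_comm]
      simp
    rcases hp : piv (lab L S x) with _ | u
    · have hp' : piv (lab L S (inv x)) = none := by
        rw [lab_inv hL, piv_negS, hp]; rfl
      rw [Ph_succ_none hp, Ph_succ_none hp']
    · have hp' : piv (lab L S (inv x)) = some (neg u) := by
        rw [lab_inv hL, piv_negS, hp]; rfl
      rw [Ph_succ_some hp, Ph_succ_some hp']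
      unfold cone
      have h1 : neg u ∈ X ↔ u ∈ negS X := by rw [mem_negS]
      by_cases h : u ∈ negS X
      · rw [if_pos h, if_pos (h1.2 h), hB, negS_erase, neg_neg]
      · rw [if_neg h, if_neg (fun h' => h (h1.1 h'))]

/-- The hypothesis to be refuted: no face of positive dimension `d` has `d` paired rows. -/
def Hyp (L : (Fin n → Bool) → Fin m × Bool) : Prop :=
  ∀ (S : Finset (Fin n)) (x : Fin n → Bool), S.Nonempty → (paired L S x).card < S.card

lemma bd_sum {ι : Type*} (s : Finset ι) (f : ι → Ch m) (X : Finset (Fin m × Bool)) :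
    bd (fun Y => ∑ i ∈ s, f i Y) X = ∑ i ∈ s, bd (f i) X := by
  unfold bd
  rw [Finset.sum_comm]

lemma bd_add (f g : Ch m) (X : Finset (Fin m × Bool)) :
    bd (fun Y => f Y + g Y) X = bd f X + bd g X := by
  unfold bd
  rw [Finset.sum_add_distrib]

lemma Bd_zero_of_none {L : (Fin n → Bool) → Fin m × Bool} (hH : Hyp L) {d : ℕ}
    {S : Finset (Fin n)} {x : Fin n → Bool} (hS : S.card = d + 1)
    (hp : piv (lab L S x) = none) (X : Finset (Fin m × Bool)) : Bd L d S x X = 0 := by
  by_contra hne
  obtain ⟨h1, h2, h3⟩ := Bd_supp L d S x X hne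
  have h4 : X.card ≤ (paired L S x).card := by
    apply Finset.card_le_card_of_injOn Prod.fst
    · rintro ⟨i, b⟩ hu
      have hu' := h3 hu
      have h5 := piv_none hp i
      simp only [paired, Finset.coe_filter, Finset.mem_univ, true_and, Set.mem_ofPred_eq]
      cases b
      · exact ⟨h5.2 hu', hu'⟩
      · exact ⟨hu', h5.1 hu'⟩
    · rintro ⟨i, b⟩ hu ⟨i', b'⟩ hv huv
      simp only at huv
      subst huv
      by_contra hc
      have hb : b' = !b := by
        cases b <;> cases b' <;> simp_all
      subst hb
      exact h2 _ hu hv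
  have h5 := hH S x (Finset.card_pos.1 (by omega))
  omega

/-- (P3) -/
lemma bd_Ph {L : (Fin n → Bool) → Fin m × Bool} (hH : Hyp L) (d : ℕ) :
    ∀ (S : Finset (Fin n)) (x : Fin n → Bool), S.card = d + 1 →
      ∀ X, bd (Ph L (d + 1) S x) X = Bd L d S x X := by
  induction d with
  | zero =>
    intro S x hS X
    rcases hp : piv (lab L S x) with _ | u
    · rw [Ph_succ_none hp, Bd_zero_of_none hH hS hp]
      simp [bd]
    · rw [Ph_succ_some hp]
      have h1 := bd_cone u (Bd L 0 S x) X
      have h2 : ∀ Y, bd (Bd L 0 S x) Y = 0 := by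
        intro Y
        unfold Bd
        rw [bd_sum]
        apply Finset.sum_eq_zero
        intro s _
        rw [bd_sum]
        rw [Fintype.sum_bool]
        have h3 : ∀ v : Fin m × Bool, bd (fun X : Finset (Fin m × Bool) => if X = {v} then (1 : ZMod 2) else 0) Y
            = if Y = ∅ then 1 else 0 := by
          intro v
          unfold bd
          by_cases hY : Y = ∅
          · subst hY
            simp
          · rw [if_neg hY]
            apply Finset.sum_eq_zero
            intro w hw
            refine if_neg ?_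
            intro h
            apply hY
            have hw' : w ∉ Y := by simpa using hw
            have hc := Finset.card_insert_of_notMem hw'
            rw [h, Finset.card_singleton] at hc
            rw [← Finset.card_eq_zero]; omega
        have h4 : ∀ b : Bool, (Ph L 0 (S.erase s) (Function.update x s b)) =
            fun X => if X = {L (Function.update x s b)} then 1 else 0 := by
          intro b; funext X; rw [Ph_zero]
        rw [h4, h4, h3, h3]
        exact two_self _
      have h5 : cone u (bd (Bd L 0 S x)) X = 0 := by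
        unfold cone
        by_cases h : u ∈ X
        · rw [if_pos h, h2]
        · rw [if_neg h]
      rw [h5, add_zero] at h1
      exact h1
  | succ d ih =>
    intro S x hS X
    rcases hp : piv (lab L S x) with _ | u
    · rw [Ph_succ_none hp, Bd_zero_of_none hH hS hp]
      simp [bd]
    · rw [Ph_succ_some hp]
      have h1 := bd_cone u (Bd L (d + 1) S x) X
      have h2 : ∀ Y, bd (Bd L (d + 1) S x) Y = 0 := by
        intro Y
        unfold Bd
        rw [bd_sum]
        have h3 : ∀ s ∈ S, bd (fun X => ∑ b : Bool, Ph L (d + 1) (S.erase s)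
            (Function.update x s b) X) Y
            = ∑ s' ∈ S.erase s, ∑ b : Bool, ∑ b' : Bool, Ph L d ((S.erase s).erase s')
              (Function.update (Function.update x s b) s' b') Y := by
          intro s hs
          rw [bd_sum, Finset.sum_comm]
          apply Finset.sum_congr rfl
          intro b _
          rw [ih (S.erase s) _ (by rw [Finset.card_erase_of_mem hs, hS]; rfl)]
          rfl
        rw [Finset.sum_congr rfl h3]
        apply sum_erase_symm
        intro s s' hss
        rw [Finset.sum_comm]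
        apply Finset.sum_congr rfl
        intro b' _
        apply Finset.sum_congr rfl
        intro b _
        rw [Finset.erase_right_comm, Function.update_comm hss]
      have h5 : cone u (bd (Bd L (d + 1) S x)) X = 0 := by
        unfold cone
        by_cases h : u ∈ X
        · rw [if_pos h, h2]
        · rw [if_neg h]
      rw [h5, add_zero] at h1
      exact h1

/-- Alternating pattern: parity of the number of elements of `S` above `k`. -/
def pat (S : Finset (Fin n)) (k : Fin n) : Bool := decide (Odd (S.filter (fun s => k < s)).card)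

lemma pat_insert {S : Finset (Fin n)} {s : Fin n} (hs : s ∉ S) (k : Fin n) :
    pat (insert s S) k = xor (pat S k) (decide (k < s)) := by
  unfold pat
  rw [Finset.filter_insert]
  by_cases h : k < s
  · rw [if_pos h, Finset.card_insert_of_notMem (by simp [hs])]
    by_cases ho : Odd (S.filter (fun s => k < s)).card
    · have : ¬ Odd ((S.filter (fun s => k < s)).card + 1) := by
        rw [Nat.odd_add_one]; exact not_not.2 ho
      simp [this, ho, h]
    · have : Odd ((S.filter (fun s => k < s)).card + 1) := by
        rw [Nat.odd_add_one]; exact ho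
      simp [this, ho, h]
  · rw [if_neg h]
    simp [h]

/-- Shifted patterns. -/
def pst (S : Finset (Fin n)) (t : ℕ) (k : Fin n) : Bool := xor (pat S k) (decide (k.val < t))

lemma pst_zero (S : Finset (Fin n)) : pst S 0 = pat S := by
  funext k; simp [pst]

lemma pst_n (S : Finset (Fin n)) : pst S n = inv (pat S) := by
  funext k; simp [pst, inv]

/-- The hemisphere chains. -/
noncomputable def Dc (L : (Fin n → Bool) → Fin m × Bool) (i : ℕ) : Ch m :=
  fun X => ∑ S ∈ powersetCard i univ, Ph L i S (pat S) X

lemma tele (g : ℕ → ZMod 2) (n : ℕ) : ∑ t ∈ range n, (g t + g (t + 1)) = g 0 + g n := by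
  induction n with
  | zero => simp [two_self]
  | succ n ih =>
    rw [Finset.sum_range_succ, ih]
    have : g 0 + g n + (g n + g (n + 1)) = g 0 + g (n + 1) + (g n + g n) := by ring
    rw [this, two_self, add_zero]

lemma upd_sum {L : (Fin n → Bool) → Fin m × Bool} (i : ℕ) (S : Finset (Fin n))
    (s : Fin n) (hs : s ∉ S) (X : Finset (Fin m × Bool)) :
    ∑ b : Bool, Ph L i S (Function.update (pat (insert s S)) s b) X
      = Ph L i S (pst S s.val) X + Ph L i S (pst S (s.val + 1)) X := by
  have h1 : ∀ k, k ≠ s → pat (insert s S) k = pst S s.val k := by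
    intro k hk
    rw [pat_insert hs, pst]
    rfl
  have h2 : ∀ k, k ≠ s → pat (insert s S) k = pst S (s.val + 1) k := by
    intro k hk
    rw [pat_insert hs, pst]
    congr 1
    have : k.val ≠ s.val := fun h => hk (Fin.ext h)
    rw [decide_eq_decide, Fin.lt_def]
    omega
  have h3 : pst S s.val = Function.update (pat (insert s S)) s (pat S s) := by
    funext k
    by_cases hk : k = s
    · subst hk; simp [pst]
    · rw [Function.update_of_ne hk, h1 k hk]
  have h4 : pst S (s.val + 1) = Function.update (pat (insert s S)) s (!pat S s) := by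
    funext k
    by_cases hk : k = s
    · subst hk; simp [pst]
    · rw [Function.update_of_ne hk, h2 k hk]
  rw [h3, h4, Fintype.sum_bool]
  cases pat S s
  · rw [add_comm]; rfl
  · rfl

lemma bd_Dc {L : (Fin n → Bool) → Fin m × Bool} (hL : ∀ x, L (inv x) = neg (L x))
    (hH : Hyp L) (i : ℕ) (X : Finset (Fin m × Bool)) :
    bd (Dc L (i + 1)) X = Dc L i X + Dc L i (negS X) := by
  unfold Dc
  rw [bd_sum]
  have h1 : ∀ S ∈ powersetCard (i + 1) (univ : Finset (Fin n)),
      bd (Ph L (i + 1) S (pat S)) X
        = ∑ s ∈ S, ∑ b : Bool, Ph L i (S.erase s) (Function.update (pat S) s b) X := by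
    intro S hS
    rw [bd_Ph hH i S (pat S) (mem_powersetCard.1 hS).2]
    rfl
  rw [Finset.sum_congr rfl h1]
  rw [Finset.sum_sigma']
  have h2 : ∑ p ∈ (powersetCard (i + 1) (univ : Finset (Fin n))).sigma (fun S => S),
      ∑ b : Bool, Ph L i (p.1.erase p.2) (Function.update (pat p.1) p.2 b) X
      = ∑ p ∈ (powersetCard i (univ : Finset (Fin n))).sigma (fun S => Sᶜ),
        ∑ b : Bool, Ph L i p.1 (Function.update (pat (insert p.2 p.1)) p.2 b) X := by
    refine Finset.sum_bij' (fun p _ => ⟨p.1.erase p.2, p.2⟩) (fun p _ => ⟨insert p.2 p.1, p.2⟩)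
      ?_ ?_ ?_ ?_ ?_
    · rintro ⟨S, s⟩ h
      simp only [mem_sigma, mem_powersetCard, mem_compl] at h ⊢
      refine ⟨⟨subset_univ _, ?_⟩, by simp⟩
      rw [Finset.card_erase_of_mem h.2, h.1.2]; rfl
    · rintro ⟨S, s⟩ h
      simp only [mem_sigma, mem_powersetCard, mem_compl] at h ⊢
      refine ⟨⟨subset_univ _, ?_⟩, by simp⟩
      rw [Finset.card_insert_of_notMem h.2, h.1.2]
    · rintro ⟨S, s⟩ h
      simp only [mem_sigma, mem_powersetCard, mem_compl] at h ⊢
      rw [Finset.insert_erase h.2]
    · rintro ⟨S, s⟩ h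
      simp only [mem_sigma, mem_powersetCard, mem_compl] at h ⊢
      rw [Finset.erase_insert h.2]
    · rintro ⟨S, s⟩ h
      simp only [mem_sigma, mem_powersetCard, mem_compl] at h ⊢
      rw [Finset.insert_erase h.2]
  rw [h2, Finset.sum_sigma]
  rw [← Finset.sum_add_distrib]
  apply Finset.sum_congr rfl
  intro S hS
  have hSc := (mem_powersetCard.1 hS).2
  have h3 : ∑ s ∈ Sᶜ, ∑ b : Bool, Ph L i S (Function.update (pat (insert s S)) s b) X
      = ∑ s ∈ Sᶜ, (Ph L i S (pst S s.val) X + Ph L i S (pst S (s.val + 1)) X) := by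
    apply Finset.sum_congr rfl
    intro s hs
    exact upd_sum i S s (by simpa using hs) X
  have h4 : ∑ s ∈ S, (Ph L i S (pst S s.val) X + Ph L i S (pst S (s.val + 1)) X) = 0 := by
    apply Finset.sum_eq_zero
    intro s hs
    rw [Ph_congr L i S (pst S (s.val + 1)) (pst S s.val) hSc, two_self]
    intro j hj
    unfold pst
    congr 1
    have : j.val ≠ s.val := by
      intro h
      have : j = s := Fin.ext h
      subst this
      exact hj hs
    rw [decide_eq_decide]
    omega
  have h5 : ∑ s : Fin n, (Ph L i S (pst S s.val) X + Ph L i S (pst S (s.val + 1)) X)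
      = Ph L i S (pst S 0) X + Ph L i S (pst S n) X := by
    rw [← tele (fun t => Ph L i S (pst S t) X) n]
    exact Fin.sum_univ_eq_sum_range
      (fun t => Ph L i S (pst S t) X + Ph L i S (pst S (t + 1)) X) n
  rw [h3]
  rw [← Finset.sum_add_sum_compl S, h4, zero_add] at h5
  rw [h5, pst_zero, pst_n, Ph_inv hL]

lemma Dc_supp (L : (Fin n → Bool) → Fin m × Bool) (i : ℕ) (X : Finset (Fin m × Bool))
    (hX : Dc L i X ≠ 0) : AF X := by
  unfold Dc at hX
  obtain ⟨S, _, h1⟩ := Finset.exists_ne_zero_of_sum_ne_zero hX
  exact (Ph_supp L i _ _ _ h1).2.1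

/-- Sum of a negated function. -/
lemma sum_negS (f : Finset (Fin m × Bool) → ZMod 2) : ∑ X, f (negS X) = ∑ X, f X := by
  apply Finset.sum_bij' (fun X _ => negS X) (fun X _ => negS X)
  · intros; exact mem_univ _
  · intros; exact mem_univ _
  · intros; simp
  · intros; simp
  · intros; rfl

lemma pr_sym (k : ℕ) (L : (Fin n → Bool) → Fin m × Bool) :
    pr (th (k + 1)) (fun X => Dc L k X + Dc L k (negS X)) = pr (cob (th k)) (Dc L k) := by
  unfold pr
  have h1 : ∑ X, th (k + 1) X * (Dc L k X + Dc L k (negS X))
      = ∑ X, (th (k + 1) X + th (k + 1) (negS X)) * Dc L k X := by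
    simp only [mul_add, add_mul, Finset.sum_add_distrib]
    congr 1
    rw [← sum_negS]
    simp
  rw [h1]
  apply Finset.sum_congr rfl
  intro X _
  by_cases hX : Dc L k X = 0
  · rw [hX]; simp
  · rw [(th_identity k X (Dc_supp L k X hX)).2]

lemma step {L : (Fin n → Bool) → Fin m × Bool} (hL : ∀ x, L (inv x) = neg (L x))
    (hH : Hyp L) (k : ℕ) :
    pr (cob (th (k + 1))) (Dc L (k + 1)) = pr (cob (th k)) (Dc L k) := by
  rw [← pr_bd, ← pr_sym]
  congr 1
  funext X
  exact bd_Dc hL hH k X

lemma base (L : (Fin n → Bool) → Fin m × Bool) : pr (cob (th 0)) (Dc L 0) = 1 := by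
  have h1 : ∀ X, Dc L 0 X = if X = {L (pat ∅)} then 1 else 0 := by
    intro X
    unfold Dc
    rw [Finset.powersetCard_zero, Finset.sum_singleton, Ph_zero]
  unfold pr
  simp only [h1, mul_ite, mul_one, mul_zero, Finset.sum_ite_eq', Finset.mem_univ, if_true]
  unfold cob
  rw [Finset.sum_singleton, Finset.erase_singleton]
  simp [th]

lemma all_one {L : (Fin n → Bool) → Fin m × Bool} (hL : ∀ x, L (inv x) = neg (L x))
    (hH : Hyp L) (k : ℕ) : pr (cob (th k)) (Dc L k) = 1 := by
  induction k with
  | zero => exact base L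
  | succ k ih => rw [step hL hH, ih]

theorem not_Hyp {L : (Fin n → Bool) → Fin m × Bool} (hL : ∀ x, L (inv x) = neg (L x)) :
    ¬ Hyp L := by
  intro hH
  have h1 := all_one hL hH (n + 1)
  have h2 : ∀ X, Dc L (n + 1) X = 0 := by
    intro X
    unfold Dc
    rw [Finset.powersetCard_eq_empty.2 (by simp), Finset.sum_empty]
  unfold pr at h1
  simp [h2] at h1

/-- **Cubical Tucker lemma.** For an odd labelling `L` of the vertices of the `n`-cube by signed
labels, some face of positive dimension `d` carries at least `d` labels with both signs. -/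
theorem cube_tucker (L : (Fin n → Bool) → Fin m × Bool)
    (hL : ∀ x, L (fun j => !x j) = ((L x).1, !(L x).2)) :
    ∃ (S : Finset (Fin n)) (x : Fin n → Bool) (P : Finset (Fin m)), S.Nonempty ∧
      S.card ≤ P.card ∧ ∀ i ∈ P,
        (∃ y : Fin n → Bool, (∀ j, j ∉ S → y j = x j) ∧ L y = (i, true)) ∧
        (∃ y : Fin n → Bool, (∀ j, j ∉ S → y j = x j) ∧ L y = (i, false)) := by
  have h := not_Hyp (L := L) hL
  unfold Hyp at h
  push Not at h
  obtain ⟨S, x, hS, hc⟩ := h
  refine ⟨S, x, paired L S x, hS, hc, ?_⟩
  intro i hi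
  simp only [paired, lab, Finset.mem_filter, Finset.mem_univ, true_and, Finset.mem_image,
    mem_face] at hi
  exact hi

end H294BF
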