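import Mathlib
import Pool.Agent.H294R2.BF.Cube

/-!
# Signing a matrix with bounded column `ℓ¹` norms
-/

namespace H294BF

open Finset

variable {m n : ℕ}

/-- sign of a Boolean -/
def sg (b : Bool) : ℝ := if b then 1 else -1

lemma sg_not (b : Bool) : sg (!b) = - sg b := by cases b <;> simp [sg]

lemma sg_abs (b : Bool) : |sg b| = 1 := by cases b <;> simp [sg]

lemma sg_diff (b c : Bool) : |sg b - sg c| ≤ 2 := by
  cases b <;> cases c <;> simp [sg] <;> norm_num

/-- Row sums. -/
def row (A : Fin m → Fin n → ℝ) (x : Fin n → Bool) (i : Fin m) : ℝ := ∑ j, A i j * sg (x j)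

lemma row_inv (A : Fin m → Fin n → ℝ) (x : Fin n → Bool) (i : Fin m) :
    row A (fun j => !x j) i = - row A x i := by
  unfold row
  rw [← Finset.sum_neg_distrib]
  apply Finset.sum_congr rfl
  intro j _
  rw [sg_not]; ring

/-- Rows violated. -/
noncomputable def bad (A : Fin m → Fin n → ℝ) (t : ℝ) (x : Fin n → Bool) : Finset (Fin m) :=
  univ.filter (fun i => t < |row A x i|)

lemma bad_inv (A : Fin m → Fin n → ℝ) (t : ℝ) (x : Fin n → Bool) :
    bad A t (fun j => !x j) = bad A t x := by
  unfold bad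
  simp only [row_inv, abs_neg]

theorem l1_bool (A : Fin m → Fin n → ℝ) (t : ℝ) (ht : 0 ≤ t)
    (hA : ∀ j, ∑ i, |A i j| ≤ t) : ∃ x : Fin n → Bool, ∀ i, |row A x i| ≤ t := by
  by_contra hcon
  push Not at hcon
  have hne : ∀ x, (bad A t x).Nonempty := by
    intro x
    obtain ⟨i, hi⟩ := hcon x
    exact ⟨i, by simp [bad, hi]⟩
  set ii : (Fin n → Bool) → Fin m := fun x => (bad A t x).min' (hne x) with hii
  have hbad : ∀ x, t < |row A x (ii x)| := by
    intro x
    have h := Finset.min'_mem _ (hne x)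
    exact (Finset.mem_filter.1 h).2
  have hiinv : ∀ x, ii (fun j => !x j) = ii x := by
    intro x
    simp only [hii]
    congr 1
    exact bad_inv A t x
  set L : (Fin n → Bool) → Fin m × Bool := fun x => (ii x, decide (0 < row A x (ii x))) with hLd
  have hL : ∀ x, L (fun j => !x j) = ((L x).1, !(L x).2) := by
    intro x
    have h1 : row A (fun j => !x j) (ii x) = - row A x (ii x) := row_inv A x _
    have h2 := hbad x
    simp only [hLd, hiinv x, h1, Prod.mk.injEq, true_and]
    by_cases hp : 0 < row A x (ii x)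
    · have : ¬ (row A x (ii x) < 0) := by linarith
      simp [hp, this]
    · have h3 : row A x (ii x) < 0 := by
        rcases lt_trichotomy (row A x (ii x)) 0 with h | h | h
        · exact h
        · rw [h, abs_zero] at h2; linarith
        · exact absurd h hp
      simp [hp, h3]
  have hpos : ∀ x i, L x = (i, true) → t < row A x i := by
    intro x i h
    simp only [hLd, Prod.mk.injEq, decide_eq_true_eq] at h
    obtain ⟨h1, h2⟩ := h
    have h3 := hbad x
    rw [abs_of_pos h2] at h3
    rwa [h1] at h3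
  have hneg : ∀ x i, L x = (i, false) → row A x i < -t := by
    intro x i h
    simp only [hLd, Prod.mk.injEq, decide_eq_false_iff_not, not_lt] at h
    obtain ⟨h1, h2⟩ := h
    have h3 := hbad x
    rw [abs_of_nonpos h2] at h3
    rw [h1] at h3
    linarith
  obtain ⟨S, x, P, hS, hSP, hP⟩ := cube_tucker L hL
  -- each row of P has weight > t on S
  have hw : ∀ i ∈ P, t < ∑ j ∈ S, |A i j| := by
    intro i hi
    obtain ⟨⟨y, hy, hyi⟩, ⟨z, hz, hzi⟩⟩ := hP i hi
    have h1 := hpos y i hyi
    have h2 := hneg z i hzi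
    have h3 : row A y i - row A z i ≤ 2 * ∑ j ∈ S, |A i j| := by
      unfold row
      rw [← Finset.sum_sub_distrib, Finset.mul_sum]
      have h4 : ∑ j, (A i j * sg (y j) - A i j * sg (z j))
          = ∑ j ∈ S, (A i j * sg (y j) - A i j * sg (z j)) := by
        symm
        apply Finset.sum_subset (Finset.subset_univ _)
        intro j _ hj
        rw [hy j hj, hz j hj]; ring
      rw [h4]
      apply Finset.sum_le_sum
      intro j _
      calc A i j * sg (y j) - A i j * sg (z j) = A i j * (sg (y j) - sg (z j)) := by ring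
        _ ≤ |A i j * (sg (y j) - sg (z j))| := le_abs_self _
        _ = |A i j| * |sg (y j) - sg (z j)| := abs_mul _ _
        _ ≤ |A i j| * 2 := mul_le_mul_of_nonneg_left (sg_diff _ _) (abs_nonneg _)
        _ = 2 * |A i j| := by ring
    linarith
  have hPne : P.Nonempty := by
    rw [← Finset.card_pos]
    have := Finset.card_pos.2 hS
    omega
  have h1 : ∑ i ∈ P, t < ∑ i ∈ P, ∑ j ∈ S, |A i j| := Finset.sum_lt_sum_of_nonempty hPne hw
  have h2 : ∑ i ∈ P, ∑ j ∈ S, |A i j| ≤ ∑ j ∈ S, t := by
    rw [Finset.sum_comm]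
    apply Finset.sum_le_sum
    intro j _
    exact (Finset.sum_le_sum_of_subset_of_nonneg (Finset.subset_univ _)
      (fun _ _ _ => abs_nonneg _)).trans (hA j)
  rw [Finset.sum_const, nsmul_eq_mul] at h1 h2
  have h3 : (S.card : ℝ) * t ≤ (P.card : ℝ) * t :=
    mul_le_mul_of_nonneg_right (by exact_mod_cast hSP) ht
  linarith

/-- **Sharp `ℓ¹` signing theorem.** -/
theorem l1_signing (A : Fin m → Fin n → ℝ) (t : ℝ) (ht : 0 ≤ t)
    (hA : ∀ j, ∑ i, |A i j| ≤ t) :
    ∃ x : Fin n → ℝ, (∀ j, x j = 1 ∨ x j = -1) ∧ ∀ i, |∑ j, A i j * x j| ≤ t := by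
  obtain ⟨x, hx⟩ := l1_bool A t ht hA
  refine ⟨fun j => sg (x j), ?_, hx⟩
  intro j
  unfold sg
  by_cases h : x j = true <;> simp [h]

/-- Set systems of maximum degree `t` have discrepancy at most `t`. -/
theorem set_signing (t : ℕ) (S : Fin m → Finset (Fin n))
    (hdeg : ∀ i : Fin n, (Finset.univ.filter (fun j : Fin m => i ∈ S j)).card ≤ t) :
    ∃ χ : Fin n → ℤ, (∀ i, χ i = 1 ∨ χ i = -1) ∧ ∀ j : Fin m, |∑ i ∈ S j, χ i| ≤ (t : ℤ) := by
  obtain ⟨x, hx⟩ := l1_bool (fun (j : Fin m) (i : Fin n) => if i ∈ S j then (1 : ℝ) else 0)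
    (t : ℝ) (by positivity) (by
      intro i
      have h1 : ∀ j : Fin m, |(if i ∈ S j then (1 : ℝ) else 0)| = if i ∈ S j then 1 else 0 := by
        intro j; split_ifs <;> simp
      simp only [h1]
      rw [Finset.sum_boole]
      exact_mod_cast hdeg i)
  refine ⟨fun i => if x i then 1 else -1, ?_, ?_⟩
  · intro i
    cases x i <;> simp
  · intro j
    have h := hx j
    have h2 : row (fun (j : Fin m) (i : Fin n) => if i ∈ S j then (1 : ℝ) else 0) x j
        = ((∑ i ∈ S j, (if x i then (1 : ℤ) else -1) : ℤ) : ℝ) := by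
      unfold row
      push_cast
      simp only [ite_mul, one_mul, zero_mul]
      rw [← Finset.sum_filter]
      have h3 : Finset.univ.filter (fun i => i ∈ S j) = S j := by ext; simp
      rw [h3]
      apply Finset.sum_congr rfl
      intro i _
      cases x i <;> simp [sg]
    rw [h2, ← Int.cast_abs] at h
    exact_mod_cast h

end H294BF
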